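import Mathlib
import Pool.Agent.Lib.helper6.Ck

set_option autoImplicit false

namespace Pool.Agent.Results.MP_041d76_gt.Sum

open Set Topology Filter TopologicalSpace Pool.Agent.Lib.helper6.Ck

/-- the class of spaces embeddable into `C_k(X,Y)` with `X` separable metrizable, `Y` metrizable -/
def CM (U : Type) [TopologicalSpace U] : Prop :=
  ∃ (X Y : Type) (_ : TopologicalSpace X) (_ : TopologicalSpace Y), MetrizableSpace X ∧
    SeparableSpace X ∧ MetrizableSpace Y ∧ ∃ e : U → C(X, Y), IsEmbedding e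

theorem result : ∃ (I : Type) (W : I → Type) (_ : ∀ i, TopologicalSpace (W i)),
    (∀ i, CM (W i)) ∧ ¬ CM (Σ i, W i) := by
  refine ⟨Set ℝ, fun Z => C(Z, ℝ), inferInstance, fun Z => ⟨Z, ℝ, _, _, inferInstance,
    inferInstance, inferInstance, id, IsEmbedding.id⟩, ?_⟩
  rintro ⟨X, Y, _, _, _, _, _, e, he⟩
  refine no_univ Cardinal.mk_real.ge _ inj (0, 2) X fun Z => ?_
  refine ⟨Y, _, inferInstance, e ∘ Sigma.mk Z ∘ g Z, ?_⟩
  rw [(he.comp (IsEmbedding.sigmaMk (i := Z))).isInducing.nhds_eq_comap, comap_comap]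
  rfl

end Pool.Agent.Results.MP_041d76_gt.Sum
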